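import Pool.Agent.N686.EL.Loops
import Pool.Agent.Y94.R.Ring
import Pool.Agent.Run7.h153.NS.Mil
set_option autoImplicit false

/-!
The curves `y² = x (x H(x)² - 4)` as quotients of the curves `z + 1/z = x H(x²)`.
-/

namespace Pool.Agent.Run7.h770.OP

open Polynomial
open Pool.Agent.TH826.MK (KQ symb Torus Unramified)
open Pool.Agent.TH826.HD
open Pool.Agent.Y94.R
open Pool.Agent.Run7.h153.NS (s2 s2_mul_left s2_mul_right s2_div_right)

section pull

variable {A B : Type*} [CommRing A] [CommRing B] {d : ℕ}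

/-- The image of a torus. -/
def pullT (ψ : B →+* A) (Γ : Torus A d) : Torus B d where
  e θ := (Γ.e θ).comp ψ
  smooth h := Γ.smooth (ψ h)
  periodic θ i := by rw [Γ.periodic]

theorem reg_pull (ψ : B →+* A) (Γ : Torus A 1) (u w : Bˣ) : (pullT ψ Γ).reg (s2 u w) =
    Γ.reg (s2 (Units.map (ψ : B →* A) u) (Units.map (ψ : B →* A) w)) := by
  unfold s2
  rw [Pool.Agent.TH826.MK.Torus.reg_symb, Pool.Agent.TH826.MK.Torus.reg_symb]
  unfold Pool.Agent.TH826.MK.Torus.pair
  congr 1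
  funext l θ
  fin_cases l <;> rfl

end pull

section defs

variable {K : Type*} [Field K] (H : K[X])

/-- `D = x (x H² - 4)` -/
noncomputable def DD : K[X] := X * (X * H ^ 2 - 4)

/-- `P = (x H² - 2) / 2` -/
noncomputable def PP : K[X] := C 2⁻¹ * (X * H ^ 2 - 2)

/-- `Q = H / 2` -/
noncomputable def QQ : K[X] := C 2⁻¹ * H

theorem half (h2 : (2 : K) ≠ 0) : (C (2⁻¹ : K)) * 2 = (1 : K[X]) := by
  rw [← map_ofNat (C : K →+* K[X]) 2, ← C_mul, inv_mul_cancel₀ h2, C_1]

theorem pell (h2 : (2 : K) ≠ 0) : PP H ^ 2 - DD H * QQ H ^ 2 = 1 := by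
  unfold PP DD QQ
  linear_combination (2 * C (2⁻¹ : K) + 1) * half h2

variable (σ : K →+* ℂ)

/-- `F = x H(x²)` -/
noncomputable def FF : ℂ[X] := X * (H.map σ).comp (X ^ 2)

theorem sq_DD : ((DD H).map σ).comp (X ^ 2) = X ^ 2 * (FF H σ ^ 2 - 4) := by
  unfold DD FF
  simp only [Polynomial.map_mul, Polynomial.map_sub, Polynomial.map_pow, Polynomial.map_X,
    Polynomial.map_ofNat, mul_comp, sub_comp, pow_comp, X_comp, ofNat_comp]
  ring

theorem sq_PP : ((PP H).map σ).comp (X ^ 2) = C 2⁻¹ * (FF H σ ^ 2 - 2) := by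
  unfold PP FF
  simp only [Polynomial.map_mul, Polynomial.map_sub, Polynomial.map_pow, Polynomial.map_X,
    Polynomial.map_ofNat, mul_comp, sub_comp, pow_comp, X_comp, ofNat_comp, Polynomial.map_C,
    C_comp, map_inv₀, map_ofNat]
  ring

theorem sq_QQ : ((QQ H).map σ).comp (X ^ 2) * X = C 2⁻¹ * FF H σ := by
  unfold QQ FF
  simp only [Polynomial.map_mul, mul_comp, Polynomial.map_C, C_comp, map_inv₀, map_ofNat]
  ring

/-- the substitution `x ↦ x²` -/
noncomputable def sqm : K[X] →+* PRing (FF H σ) :=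
  (ppol (FF H σ)).comp ((Polynomial.compRingHom (X ^ 2)).comp (Polynomial.mapRingHom σ))

theorem sqm_apply (p : K[X]) : sqm H σ p = ppol (FF H σ) ((p.map σ).comp (X ^ 2)) := rfl

/-- the covering `(x, z) ↦ (x², x (z - 1/z))` -/
noncomputable def cov0 : HRing (DD H) →+* PRing (FF H σ) :=
  AdjoinRoot.lift (sqm H σ) (ppol (FF H σ) X * (2 * pz (FF H σ) - ppol (FF H σ) (FF H σ))) (by
    unfold heqn
    simp only [Polynomial.eval₂_sub, Polynomial.eval₂_X_pow, Polynomial.eval₂_C]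
    rw [sqm_apply, sq_DD, map_mul, map_sub, map_pow, map_pow, map_ofNat]
    linear_combination 4 * ppol (FF H σ) X ^ 2 * pz_eq (FF H σ))

theorem cov0_hpol (p : K[X]) : cov0 H σ (hpol (DD H) p) = ppol (FF H σ) ((p.map σ).comp (X ^ 2)) :=
  AdjoinRoot.lift_of _

theorem cov0_hy : cov0 H σ (hy (DD H)) =
    ppol (FF H σ) X * (2 * pz (FF H σ) - ppol (FF H σ) (FF H σ)) :=
  AdjoinRoot.lift_root _

theorem cov0_z : cov0 H σ (hpol (DD H) (PP H) + hpol (DD H) (QQ H) * hy (DD H)) =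
    pz (FF H σ) ^ 2 := by
  rw [map_add, map_mul, cov0_hpol, cov0_hpol, cov0_hy, ← mul_assoc, ← map_mul, sq_PP, sq_QQ,
    map_mul, map_mul, map_sub, map_pow, map_ofNat]
  have hc : ppol (FF H σ) (C 2⁻¹) * 2 = 1 := by
    rw [← map_ofNat (ppol (FF H σ)) 2, ← map_mul, half two_ne_zero, map_one]
  linear_combination (pz (FF H σ) * ppol (FF H σ) (FF H σ) - 1) * hc - pz_eq (FF H σ)

end defs

section cover

variable {K : Type*} [Field K] {H : K[X]} {σ : K →+* ℂ} {n n' : ℕ} {b : Fin n → K}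
  {β : Fin n' → ℂ}

/-- the covering of the open parts -/
noncomputable def cov (hu : IsUnit (toP (FF H σ) β (cov0 H σ (hDel (DD H) b)))) :
    HOpen (DD H) b →+* POpen (FF H σ) β :=
  AdjoinRoot.lift ((toP (FF H σ) β).comp (cov0 H σ)) ((hu.unit⁻¹ : (POpen (FF H σ) β)ˣ)) (by
    unfold heqnO
    simp only [Polynomial.eval₂_sub, Polynomial.eval₂_mul, Polynomial.eval₂_X,
      Polynomial.eval₂_C, Polynomial.eval₂_one]
    rw [RingHom.comp_apply, sub_eq_zero]
    exact hu.mul_val_inv)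

theorem cov_toH (hu : IsUnit (toP (FF H σ) β (cov0 H σ (hDel (DD H) b)))) (r : HRing (DD H)) :
    cov hu (toH (DD H) b r) = toP (FF H σ) β (cov0 H σ r) :=
  AdjoinRoot.lift_of _

theorem cov_hcst (hu : IsUnit (toP (FF H σ) β (cov0 H σ (hDel (DD H) b)))) (c : K) :
    cov hu (hcst (DD H) b c) = pcst (FF H σ) β (σ c) := by
  unfold hcst pcst
  rw [RingHom.comp_apply, RingHom.comp_apply, cov_toH, cov0_hpol, Polynomial.map_C, C_comp]
  rfl

theorem cov_hz (hu : IsUnit (toP (FF H σ) β (cov0 H σ (hDel (DD H) b)))) (h2 : (2 : K) ≠ 0) :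
    Units.map (cov hu : HOpen (DD H) b →* POpen (FF H σ) β) (hz b (pell H h2)) =
      uz (FF H σ) β * uz (FF H σ) β := by
  apply Units.ext
  show cov hu (toH (DD H) b _) = (uz (FF H σ) β : POpen (FF H σ) β) * uz (FF H σ) β
  rw [cov_toH, cov0_z, sq, map_mul]
  rfl

theorem cov_hx (hu : IsUnit (toP (FF H σ) β (cov0 H σ (hDel (DD H) b)))) (m : Fin n)
    (i j : Fin n') (h0 : β i + β j = 0) (h1 : β i * β j = -σ (b m)) :
    Units.map (cov hu : HOpen (DD H) b →* POpen (FF H σ) β) (hx (DD H) b m) =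
      ux (FF H σ) β i * ux (FF H σ) β j := by
  apply Units.ext
  show cov hu (toH (DD H) b _) = (ux (FF H σ) β i : POpen (FF H σ) β) * ux (FF H σ) β j
  rw [cov_toH, cov0_hpol, coe_ux, coe_ux, ← map_mul, ← map_mul]
  congr 2
  rw [Polynomial.map_sub, Polynomial.map_X, Polynomial.map_C, sub_comp, X_comp, C_comp]
  have e1 : C (σ (b m)) = -(C (β i) * C (β j)) := by rw [← C_mul, h1, C_neg, neg_neg]
  have e2 : (C (β i) + C (β j) : ℂ[X]) = 0 := by rw [← C_add, h0, C_0]
  rw [e1]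
  linear_combination X * e2

theorem isUnit_of (hx : ∀ m : Fin n, ∃ i j : Fin n', β i + β j = 0 ∧ β i * β j = -σ (b m)) :
    IsUnit (toP (FF H σ) β (cov0 H σ (hDel (DD H) b))) := by
  unfold hDel
  rw [map_prod, map_prod, map_prod]
  refine Finset.prod_induction _ IsUnit (fun _ _ => IsUnit.mul) isUnit_one fun m _ => ?_
  obtain ⟨i, j, h0, h1⟩ := hx m
  have e : toP (FF H σ) β (cov0 H σ (hpol (DD H) (X - C (b m)))) =
      (ux (FF H σ) β i : POpen (FF H σ) β) * ux (FF H σ) β j := by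
    rw [cov0_hpol, coe_ux, coe_ux, ← map_mul, ← map_mul]
    congr 2
    rw [Polynomial.map_sub, Polynomial.map_X, Polynomial.map_C, sub_comp, X_comp, C_comp]
    have e1 : C (σ (b m)) = -(C (β i) * C (β j)) := by rw [← C_mul, h1, C_neg, neg_neg]
    have e2 : (C (β i) + C (β j) : ℂ[X]) = 0 := by rw [← C_add, h0, C_0]
    rw [e1]
    linear_combination X * e2
  rw [e]
  exact (ux (FF H σ) β i * ux (FF H σ) β j).isUnit

theorem reg_cov (hu : IsUnit (toP (FF H σ) β (cov0 H σ (hDel (DD H) b)))) (h2 : (2 : K) ≠ 0)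
    (m l : Fin n) (i j k : Fin n') (h0 : β i + β j = 0) (h1 : β i * β j = -σ (b m))
    (h3 : β k = 0) (h4 : b l = 0) (Γ : Torus (POpen (FF H σ) β) 1) :
    (pullT (cov hu) Γ).reg (symb (hent b (pell H h2) m l)) =
      2 * (Γ.reg (symb (pent (FF H σ) β i k)) + Γ.reg (symb (pent (FF H σ) β j k))) := by
  have e1 : symb (hent b (pell H h2) m l) =
    s2 (hz b (pell H h2)) (hx (DD H) b m / hx (DD H) b l) := rfl
  have e2 : ∀ i, symb (pent (FF H σ) β i k) =
    s2 (uz (FF H σ) β) (ux (FF H σ) β i / ux (FF H σ) β k) := fun i => rfl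
  rw [e1, e2, e2, reg_pull, _root_.map_div, cov_hz hu h2, cov_hx hu m i j h0 h1,
    cov_hx hu l k k (by rw [h3, add_zero]) (by rw [h3, h4, map_zero, mul_zero, neg_zero])]
  simp only [s2_mul_left, s2_mul_right, s2_div_right, map_add, map_sub]
  ring

end cover

/-- The condition on the critical values of `x H(x)²` at the embedding `σ`. -/
def CritOutside {K : Type*} [Field K] (σ : K →+* ℂ) (H : K[X]) : Prop :=
  ∀ u : ℂ, H.eval₂ σ u + 2 * u * (derivative H).eval₂ σ u = 0 →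
    5 < ‖u * H.eval₂ σ u ^ 2‖ + ‖u * H.eval₂ σ u ^ 2 - 4‖

section main

variable {K : Type*} [Field K] {H : K[X]} {σ : K →+* ℂ}

theorem eval_FF (x : ℂ) : (FF H σ).eval x = x * H.eval₂ σ (x ^ 2) := by
  unfold FF
  rw [eval_mul, eval_X, eval_comp, eval_pow, eval_X, eval_map]

theorem eval_dFF (x : ℂ) : (derivative (FF H σ)).eval x =
    H.eval₂ σ (x ^ 2) + 2 * x ^ 2 * (derivative H).eval₂ σ (x ^ 2) := by
  unfold FF
  simp only [derivative_mul, derivative_X, one_mul, derivative_comp, derivative_X_pow, eval_add,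
    eval_mul, eval_comp, eval_pow, eval_X, eval_map, derivative_map, eval_C]
  simp
  ring

theorem crit_FF (hc : CritOutside σ H) (x : ℂ)
    (hx : (derivative (FF H σ)).eval₂ (RingHom.id ℂ) x = 0) :
    3 * √2 < ‖(FF H σ).eval₂ (RingHom.id ℂ) x - 2‖ + ‖(FF H σ).eval₂ (RingHom.id ℂ) x + 2‖ := by
  have hid : ∀ p : ℂ[X], p.eval₂ (RingHom.id ℂ) x = p.eval x := fun p => rfl
  rw [hid] at hx ⊢
  rw [eval_dFF] at hx
  have h1 := hc (x ^ 2) hx
  set w := (FF H σ).eval x with hw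
  have h2 : x ^ 2 * H.eval₂ σ (x ^ 2) ^ 2 = w ^ 2 := by
    rw [hw, eval_FF]
    ring
  rw [h2] at h1
  have h3 : ‖w ^ 2 - 4‖ = ‖w - 2‖ * ‖w + 2‖ := by
    rw [← norm_mul]
    congr 1
    ring
  have h4 : ‖w - 2‖ ^ 2 + ‖w + 2‖ ^ 2 = 2 * ‖w ^ 2‖ + 8 := by
    rw [norm_pow]
    have := parallelogram_law_with_norm ℝ w (2 : ℂ)
    have e : ‖(2 : ℂ)‖ = 2 := by norm_num
    rw [e] at this
    nlinarith
  have h5 : √2 ^ 2 = 2 := Real.sq_sqrt (by norm_num)
  refine lt_of_pow_lt_pow_left₀ 2 (by positivity) ?_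
  rw [mul_pow, h5]
  nlinarith

theorem natDegree_FF {g : ℕ} (hdeg : H.natDegree = g) (hH : H ≠ 0) :
    (FF H σ).natDegree = g + g + 1 := by
  unfold FF
  have h1 : ((H.map σ).comp (X ^ 2)).natDegree = 2 * g := by
    rw [natDegree_comp, natDegree_X_pow, natDegree_map, hdeg, mul_comm]
  have h2 : (H.map σ).comp (X ^ 2) ≠ 0 := by
    intro h
    rw [Polynomial.comp_eq_zero_iff] at h
    rcases h with h | ⟨-, h⟩
    · exact hH ((Polynomial.map_eq_zero σ).1 h)
    · have := congrArg natDegree h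
      rw [natDegree_X_pow, natDegree_C] at this
      exact two_ne_zero this
  rw [natDegree_X_mul h2, h1]
  ring

/-- **The loops.** -/
theorem exists_tori {g : ℕ} (hdeg : H.natDegree = g) (hH : H ≠ 0) {b : Fin (g + 1) → K}
    (hb0 : b 0 = 0) (hbi : Function.Injective b) (hroot : ∀ i : Fin g, H.eval (b i.succ) = 0)
    (hc : CritOutside σ H) (h2 : (2 : K) ≠ 0) :
    ∃ Γ : Fin (g + g) → Torus (HOpen (DD H) b) 1,
      (∀ l θ (c : K), (Γ l).e θ (hcst (DD H) b c) = σ c) ∧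
      LinearIndependent ℝ fun (i : Fin g) (l : Fin (g + g)) =>
        (Γ l).reg (symb (hent b (pell H h2) i.succ 0)) := by
  choose r hr using fun i : Fin g => IsAlgClosed.exists_pow_nat_eq (σ (b i.succ)) two_pos
  have hr0 : ∀ i, r i ≠ 0 := by
    intro i h
    have h1 := hr i
    rw [h, zero_pow two_ne_zero] at h1
    have h3 : b i.succ = b 0 := by
      rw [hb0]
      exact (map_eq_zero σ).1 h1.symm
    exact (Fin.succ_ne_zero i) (hbi h3)
  have hrs : ∀ i j, r i ^ 2 = r j ^ 2 → i = j := by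
    intro i j h
    rw [hr, hr] at h
    exact Fin.succ_injective _ (hbi (σ.injective h))
  set β : Fin (g + g + 1) → ℂ := Fin.cons 0 (Fin.append r fun i => -r i) with hβ
  have hβi : Function.Injective β := by
    rw [hβ, Fin.cons_injective_iff]
    refine ⟨?_, ?_⟩
    · rintro ⟨i, hi⟩
      revert hi
      refine Fin.addCases (fun k => ?_) (fun k => ?_) i
      · rw [Fin.append_left]
        exact hr0 k
      · rw [Fin.append_right]
        exact neg_ne_zero.2 (hr0 k)
    · rw [Fin.append_injective_iff]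
      refine ⟨fun i j h => hrs i j (by rw [h]), fun i j h => hrs i j (by
        have h' : -r i = -r j := h
        rw [neg_inj.1 h']), fun i j h => ?_⟩
      have h3 : i = j := hrs i j (by rw [h]; ring)
      subst h3
      exact hr0 i (by linear_combination h / 2)
  have hβ0 : β 0 = 0 := rfl
  have hβl : ∀ i : Fin g, β (Fin.castAdd g i).succ = r i := fun i => by
    rw [hβ, Fin.cons_succ, Fin.append_left]
  have hβr : ∀ i : Fin g, β (Fin.natAdd g i).succ = -r i := fun i => by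
    rw [hβ, Fin.cons_succ, Fin.append_right]
  have hroot' : ∀ m, (FF H σ).eval (β m) = 0 := by
    intro m
    have hx : ∀ i : Fin g, H.eval₂ σ (r i ^ 2) = 0 := fun i => by
      rw [hr, eval₂_at_apply, hroot, map_zero]
    refine Fin.cases ?_ (fun j => ?_) m
    · rw [hβ0, eval_FF, zero_mul]
    · refine Fin.addCases (fun k => ?_) (fun k => ?_) j
      · rw [hβl, eval_FF, hx, mul_zero]
      · rw [hβr, eval_FF, neg_sq, hx, mul_zero]
  obtain ⟨Γ, hΓ, hdet⟩ := Pool.Agent.N686.EL.crit_sqrt (s := RingHom.id ℂ) (F := FF H σ)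
    (natDegree_FF hdeg hH) (crit_FF hc) β hroot' hβi
  have hpair : ∀ m : Fin (g + 1), ∃ i j, β i + β j = 0 ∧ β i * β j = -σ (b m) := by
    intro m
    refine Fin.cases ⟨0, 0, by rw [hβ0, add_zero], by rw [hβ0, hb0, map_zero]; simp⟩
      (fun i => ⟨(Fin.castAdd g i).succ, (Fin.natAdd g i).succ, by rw [hβl, hβr]; ring, by
        rw [hβl, hβr, ← hr i]; ring⟩) m
  have hu := isUnit_of (H := H) hpair
  refine ⟨fun l => pullT (cov hu) (Γ l), fun l θ c => ?_, ?_⟩
  · show (Γ l).e θ (cov hu (hcst (DD H) b c)) = σ c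
    rw [cov_hcst, hΓ]
    rfl
  have hreg : ∀ (i : Fin g) (l : Fin (g + g)),
      (pullT (cov hu) (Γ l)).reg (symb (hent b (pell H h2) i.succ 0)) =
      2 * ((Γ l).reg (symb (pent (FF H σ) β (Fin.castAdd g i).succ 0)) +
        (Γ l).reg (symb (pent (FF H σ) β (Fin.natAdd g i).succ 0))) := by
    intro i l
    exact reg_cov hu h2 i.succ 0 _ _ 0 (by rw [hβl, hβr]; ring) (by
      rw [hβl, hβr, ← hr i]; ring) hβ0 hb0 (Γ l)
  set M : Matrix (Fin (g + g)) (Fin (g + g)) ℝ :=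
    Matrix.of fun l k => (Γ l).reg (symb (pent (FF H σ) β k.succ 0)) with hM
  rw [Fintype.linearIndependent_iff]
  intro c hc0
  set d : Fin (g + g) → ℝ := Fin.append (fun i => 2 * c i) fun i => 2 * c i with hd
  have h5 : M.mulVec d = 0 := by
    funext l
    have h6 := congrFun hc0 l
    rw [Finset.sum_apply] at h6
    simp only [Pi.smul_apply, smul_eq_mul, Pi.zero_apply] at h6
    rw [Matrix.mulVec, Pi.zero_apply, ← h6]
    show ∑ k, M l k * d k = _
    rw [Fin.sum_univ_add, ← Finset.sum_add_distrib]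
    refine Finset.sum_congr rfl fun i _ => ?_
    rw [hreg i l, hd, Fin.append_left, Fin.append_right, hM, Matrix.of_apply, Matrix.of_apply]
    ring
  have h7 : d = 0 := Matrix.eq_zero_of_mulVec_eq_zero hdet h5
  intro i
  have h8 := congrFun h7 (Fin.castAdd g i)
  rw [hd, Fin.append_left, Pi.zero_apply] at h8
  linarith

end main

end Pool.Agent.Run7.h770.OP
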