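import Pool.Agent.N686.DI.Int
set_option autoImplicit false

/-!
The critical values of `x H(x)²`, `H = m ∏ (x - b_i)` with different nonzero integers `b_i`.
-/

namespace Pool.Agent.Run7.h770.OP

open Polynomial Pool.Agent.N686.DI

/-- the points `0, b_i, b_i` -/
noncomputable def dbl {g : ℕ} {R : Type*} [Zero R] (b : Fin g → R) : Fin (g + g + 1) → R :=
  Fin.cons 0 (Fin.append b b)

theorem prod_dbl {g : ℕ} {R M : Type*} [Zero R] [CommMonoid M] (b : Fin g → R) (f : R → M) :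
    ∏ i, f (dbl b i) = f 0 * ((∏ i, f (b i)) * ∏ i, f (b i)) := by
  unfold dbl
  rw [Fin.prod_univ_succ, Fin.cons_zero, Fin.prod_univ_add]
  simp only [Fin.cons_succ, Fin.append_left, Fin.append_right]

theorem sum_dbl {g : ℕ} {R M : Type*} [Zero R] [AddCommMonoid M] (b : Fin g → R) (f : R → M) :
    ∑ i, f (dbl b i) = f 0 + ((∑ i, f (b i)) + ∑ i, f (b i)) := by
  unfold dbl
  rw [Fin.sum_univ_succ, Fin.cons_zero, Fin.sum_univ_add]
  simp only [Fin.cons_succ, Fin.append_left, Fin.append_right]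

theorem forall_dbl {g : ℕ} {R : Type*} [Zero R] (b : Fin g → R) (p : R → Prop) (h0 : p 0)
    (h : ∀ i, p (b i)) (i : Fin (g + g + 1)) : p (dbl b i) := by
  unfold dbl
  refine Fin.cases ?_ (fun j => ?_) i
  · rw [Fin.cons_zero]
    exact h0
  · rw [Fin.cons_succ]
    refine Fin.addCases (fun k => ?_) (fun k => ?_) j
    · rw [Fin.append_left]; exact h k
    · rw [Fin.append_right]; exact h k

/-- the critical values -/
theorem crit_half {g : ℕ} (b : Fin g → ℤ) {u : ℂ}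
    (h0 : u ≠ 0) (h1 : ∀ i, u - b i ≠ 0) (hu : u⁻¹ + 2 * ∑ i, (u - b i)⁻¹ = 0) :
    ∃ N : ℤ, |(N : ℝ) + 1 / 2| * ((∏ i, |(N : ℝ) + 1 / 2 - b i|) * ∏ i, |(N : ℝ) + 1 / 2 - b i|) ≤
      ‖u‖ * ‖∏ i, (u - (b i : ℂ))‖ ^ 2 := by
  have hcast : ∀ i, (b i : ℂ) = ((b i : ℝ) : ℂ) := fun i => by push_cast; rfl
  set a : Fin g → ℝ := fun i => (b i : ℝ) with ha
  have hd0 : ∀ i, u - ((dbl a i : ℝ) : ℂ) ≠ 0 :=
    forall_dbl a (fun t : ℝ => u - (t : ℂ) ≠ 0) (by simpa using h0) fun i => by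
      rw [ha]; simpa using h1 i
  have him : u.im = 0 := by
    refine real_of_crit (dbl a) (Nat.succ_pos _) hd0 ?_
    rw [sum_dbl a fun t : ℝ => (u - (t : ℂ))⁻¹, ← hu]
    simp only [ha, Complex.ofReal_zero, sub_zero, Complex.ofReal_intCast]
    ring
  set x : ℝ := u.re with hx
  have hux : u = (x : ℂ) := by
    apply Complex.ext
    · simp [hx]
    · simpa using him
  have hx0 : x ≠ 0 := fun h => h0 (by rw [hux, h, Complex.ofReal_zero])
  have hxb : ∀ i, x - b i ≠ 0 := fun i h => h1 i (by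
    rw [hux, hcast, ← Complex.ofReal_sub, h, Complex.ofReal_zero])
  have hxd : ∀ i, x - dbl a i ≠ 0 := forall_dbl a (fun t => x - t ≠ 0) (by simpa using hx0) hxb
  have hxs : ∑ i, (x - dbl a i)⁻¹ = 0 := by
    rw [sum_dbl a fun t => (x - t)⁻¹]
    have h2 : ((x⁻¹ + 2 * ∑ i, (x - a i)⁻¹ : ℝ) : ℂ) = 0 := by
      rw [← hu, hux]
      push_cast
      rfl
    have h3 : x⁻¹ + 2 * ∑ i, (x - a i)⁻¹ = 0 := by exact_mod_cast h2
    rw [sub_zero]
    linarith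
  set N : ℤ := ⌊x⌋ with hN
  have hN1 : (N : ℝ) ≤ x := Int.floor_le x
  have hN2 : x < N + 1 := Int.lt_floor_add_one x
  have key : ∀ c : ℤ, x - c ≠ 0 → 0 < ((N + 1 / 2 : ℝ) - c) / (x - c) := by
    intro c hc
    rcases le_or_gt c N with h | h
    · have h2 : (c : ℝ) ≤ N := by exact_mod_cast h
      have h3 : 0 < x - c := lt_of_le_of_ne (by linarith) hc.symm
      exact div_pos (by linarith) h3
    · have h2 : (N : ℝ) + 1 ≤ c := by exact_mod_cast (by omega : N + 1 ≤ c)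
      exact div_pos_of_neg_of_neg (by linarith) (by linarith)
  have h4 := le_crit_value (dbl a) (x := x) (m := N + 1 / 2) hxd hxs
    (forall_dbl a (fun t => 0 < ((N + 1 / 2 : ℝ) - t) / (x - t)) (by
      have := key 0 (by simpa using hx0)
      simpa using this) fun i => key (b i) (hxb i))
  rw [prod_dbl a fun t => |(N + 1 / 2 : ℝ) - t|, prod_dbl a fun t => |x - t|] at h4
  have h5 : ‖u‖ * ‖∏ i, (u - (b i : ℂ))‖ ^ 2 =
      |x - 0| * ((∏ i, |x - a i|) * ∏ i, |x - a i|) := by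
    rw [norm_prod, sq, sub_zero, hux, Complex.norm_real, Real.norm_eq_abs]
    congr 2 <;>
    · refine Finset.prod_congr rfl fun i _ => ?_
      rw [hcast, ← Complex.ofReal_sub, Complex.norm_real, Real.norm_eq_abs]
  rw [sub_zero] at h4
  exact ⟨N, by rw [h5]; exact h4⟩

theorem crit_dbl {g : ℕ} (b : Fin g → ℤ) (hb : Function.Injective b) (hb0 : ∀ i, b i ≠ 0) {u : ℂ}
    (h0 : u ≠ 0) (h1 : ∀ i, u - b i ≠ 0) (hu : u⁻¹ + 2 * ∑ i, (u - b i)⁻¹ = 0) :
    mm (g + 1) * mm g ≤ ‖u‖ * ‖∏ i, (u - (b i : ℂ))‖ ^ 2 := by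
  obtain ⟨N, h4⟩ := crit_half b h0 h1 hu
  refine le_trans ?_ h4
  have h6 := mm_le_prod (n := g + 1) (Fin.cons 0 b) (by
    rw [Fin.cons_injective_iff]
    exact ⟨fun ⟨i, hi⟩ => hb0 i hi, hb⟩) N
  rw [Fin.prod_univ_succ] at h6
  simp only [Fin.cons_zero, Fin.cons_succ, Int.cast_zero, sub_zero] at h6
  have h7 := mm_le_prod b hb N
  calc mm (g + 1) * mm g ≤ (|(N : ℝ) + 1 / 2| * ∏ i, |(N : ℝ) + 1 / 2 - b i|) *
        ∏ i, |(N : ℝ) + 1 / 2 - b i| :=
        mul_le_mul h6 h7 (mm_pos g).le (by positivity)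
    _ = _ := by rw [mul_assoc]

theorem half_le (N c : ℤ) : (1 / 2 : ℝ) ≤ |(N : ℝ) + 1 / 2 - c| := by
  rw [abs_sub_half]
  have : (0 : ℝ) ≤ ((enu N c / 2 : ℕ) : ℝ) := Nat.cast_nonneg _
  linarith

/-- large roots -/
theorem crit_big {g : ℕ} (b : Fin g → ℤ) (j : Fin g) {u : ℂ}
    (h0 : u ≠ 0) (h1 : ∀ i, u - b i ≠ 0) (hu : u⁻¹ + 2 * ∑ i, (u - b i)⁻¹ = 0) :
    |(b j : ℝ)| / 2 / 4 ^ g ≤ ‖u‖ * ‖∏ i, (u - (b i : ℂ))‖ ^ 2 := by
  classical
  obtain ⟨N, h4⟩ := crit_half b h0 h1 hu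
  refine le_trans ?_ h4
  set v : ℝ := (N : ℝ) + 1 / 2 with hv
  have hA : (1 / 2 : ℝ) ≤ |v| := by
    have := half_le N 0
    rwa [Int.cast_zero, sub_zero] at this
  have hB : (1 / 2 : ℝ) ≤ |v - b j| := half_le N (b j)
  have h5 : |v - b j| * (1 / 2) ^ (g - 1) ≤ ∏ i, |v - b i| := by
    rw [← Finset.mul_prod_erase _ _ (Finset.mem_univ j)]
    refine mul_le_mul_of_nonneg_left ?_ (abs_nonneg _)
    have h6 := Finset.prod_le_prod (s := Finset.univ.erase j) (f := fun _ => (1 / 2 : ℝ))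
      (g := fun i => |v - b i|) (fun i _ => by norm_num) fun i _ => half_le N (b i)
    rwa [Finset.prod_const, Finset.card_erase_of_mem (Finset.mem_univ j), Finset.card_univ,
      Fintype.card_fin] at h6
  have hg : 1 ≤ g := Nat.succ_le_of_lt (Fin.pos j)
  have h7 : ((1 / 2 : ℝ) ^ (g - 1)) * (1 / 2) ^ (g - 1) = 4 / 4 ^ g := by
    obtain ⟨k, rfl⟩ := Nat.exists_eq_add_of_le hg
    rw [Nat.add_sub_cancel_left, ← mul_pow, pow_add]
    norm_num
    field_simp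
    rw [← mul_pow]
    norm_num
  have h8 : |(b j : ℝ)| ≤ |v| + |v - b j| := by
    have := abs_sub v (v - b j)
    rwa [sub_sub_cancel] at this
  have hg4 : (0 : ℝ) < 4 ^ g := by positivity
  calc |(b j : ℝ)| / 2 / 4 ^ g ≤ (|v| * (|v - b j| * |v - b j|)) * (4 / 4 ^ g) := by
        rw [mul_div_assoc', div_le_div_iff_of_pos_right hg4]
        nlinarith [mul_le_mul hA hB (by norm_num) (abs_nonneg v)]
    _ = |v| * ((|v - b j| * (1 / 2) ^ (g - 1)) * (|v - b j| * (1 / 2) ^ (g - 1))) := by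
        rw [← h7]
        ring
    _ ≤ _ := by
        refine mul_le_mul_of_nonneg_left ?_ (abs_nonneg _)
        exact mul_le_mul h5 h5 (by positivity) (by positivity)

/-- the lower bound for the critical values -/
theorem lt_crit {g : ℕ} {m : ℤ} (h : 7 ≤ |m| ∧ 1 ≤ g ∨ 5 ≤ |m| ∧ 3 ≤ g ∨ 3 ≤ |m| ∧ 4 ≤ g ∨
    m ≠ 0 ∧ 5 ≤ g) : (9 / 2 : ℝ) < ((|m| : ℤ) : ℝ) ^ 2 * (mm (g + 1) * mm g) := by
  have h1 : mm 1 = 1 / 2 := by simp [mm]
  have h3 : mm 3 = 3 / 8 := by rw [mm_succ, mm_two]; norm_num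
  have h4 : mm 4 = 9 / 16 := by rw [mm_succ, h3]; norm_num
  have h6 : mm 6 = 225 / 64 := by rw [mm_succ, mm_five]; norm_num
  have hmono : ∀ n k : ℕ, 2 ≤ n → mm n ≤ mm (n + k) := by
    intro n k hn
    induction k with
    | zero => exact le_rfl
    | succ k ih => exact ih.trans (mm_le_succ (by omega))
  have key : ∀ (n : ℕ) (c d : ℝ), 0 ≤ d → 0 < c → 2 ≤ n → n ≤ g → mm (n + 1) * mm n = c →
      d ≤ ((|m| : ℤ) : ℝ) → 9 / 2 < d ^ 2 * c → (9 / 2 : ℝ) < ((|m| : ℤ) : ℝ) ^ 2 * (mm (g + 1) * mm g) := by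
    intro n c d hd hc0 hn hg hc hm hlt
    obtain ⟨k, rfl⟩ := Nat.exists_eq_add_of_le hg
    have e1 := hmono n k hn
    have e2 := hmono (n + 1) k (by omega)
    rw [show n + 1 + k = n + k + 1 by ring] at e2
    refine hlt.trans_le ?_
    have e3 : c ≤ mm (n + k + 1) * mm (n + k) := by
      rw [← hc]
      exact mul_le_mul e2 e1 (mm_pos n).le (mm_pos _).le
    exact mul_le_mul (pow_le_pow_left₀ hd hm 2) e3 hc0.le (by positivity)
  rcases h with ⟨hm, hg⟩ | ⟨hm, hg⟩ | ⟨hm, hg⟩ | ⟨hm, hg⟩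
  · have hm' : (7 : ℝ) ≤ ((|m| : ℤ) : ℝ) := by exact_mod_cast hm
    rcases Nat.lt_or_ge g 2 with h2 | h2
    · obtain rfl : g = 1 := by omega
      rw [mm_two, h1]
      nlinarith
    · exact key 2 (3 / 32) 7 (by norm_num) (by norm_num) le_rfl h2 (by rw [h3, mm_two]; norm_num) hm'
        (by norm_num)
  · exact key 3 (27 / 128) 5 (by norm_num) (by norm_num) (by norm_num) hg
      (by rw [h4, h3]; norm_num) (by exact_mod_cast hm) (by norm_num)
  · exact key 4 (405 / 512) 3 (by norm_num) (by norm_num) (by norm_num) hg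
      (by rw [mm_five, h4]; norm_num) (by exact_mod_cast hm) (by norm_num)
  · have hm' : (1 : ℝ) ≤ ((|m| : ℤ) : ℝ) := by exact_mod_cast Int.one_le_abs hm
    exact key 5 (10125 / 2048) 1 (by norm_num) (by norm_num) (by norm_num) hg
      (by rw [h6, mm_five]; norm_num) hm' (by norm_num)

end Pool.Agent.Run7.h770.OP
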