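import Pool.Agent.N686.EL.Loops
import Pool.Agent.N686.DI.Int
import Pool.Agent.Run7.h770.OP.Cov
set_option autoImplicit false

/-!
The curves `y² = F(x)² + 4`, that is, `z - 1/z = F(x)`.
-/

namespace Pool.Agent.Run7.h770.NM

open Polynomial
open Pool.Agent.TH826.MK (KQ symb Torus Unramified)
open Pool.Agent.TH826.HD
open Pool.Agent.Y94.R
open Pool.Agent.Run7.h153.NS (s2 s2_mul_left s2_one_left)
open Pool.Agent.Run7.h770.OP (pullT reg_pull half)

section neg

variable {A : Type*} [CommRing A]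

theorem s2_neg_one (w : Aˣ) : s2 (-1 : Aˣ) w = 0 := by
  have h := s2_mul_left (-1 : Aˣ) (-1) w
  rw [neg_mul_neg, one_mul, s2_one_left, ← two_smul ℚ] at h
  exact (smul_eq_zero.1 h.symm).resolve_left two_ne_zero

end neg

section defs

variable {K : Type*} [Field K] (F : K[X])

/-- `D = F² + 4` -/
noncomputable def DN : K[X] := F ^ 2 + 4

/-- `P = (F² + 2) / 2` -/
noncomputable def PN : K[X] := C 2⁻¹ * (F ^ 2 + 2)

/-- `Q = F / 2` -/
noncomputable def QN : K[X] := C 2⁻¹ * F

theorem pellN (h2 : (2 : K) ≠ 0) : PN F ^ 2 - DN F * QN F ^ 2 = 1 := by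
  unfold PN DN QN
  linear_combination (2 * C (2⁻¹ : K) + 1) * half h2

variable (σ : K →+* ℂ)

/-- `i F` -/
noncomputable def FI : ℂ[X] := C Complex.I * F.map σ

/-- the constant `i` -/
noncomputable abbrev ii : PRing (FI F σ) := ppol (FI F σ) (C Complex.I)

theorem ii_sq : ii F σ * ii F σ = -1 := by
  rw [← map_mul, ← C_mul, Complex.I_mul_I, C_neg, C_1, map_neg, map_one]

theorem ppol_FI : ppol (FI F σ) (FI F σ) = ii F σ * ppol (FI F σ) (F.map σ) := by
  rw [← map_mul]
  rfl

/-- the isomorphism `(x, z) ↦ (x, 1/z - z)` times `i` -/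
noncomputable def covN0 : HRing (DN F) →+* PRing (FI F σ) :=
  AdjoinRoot.lift ((ppol (FI F σ)).comp (Polynomial.mapRingHom σ))
    (-(2 * ii F σ * pz (FI F σ)) - ppol (FI F σ) (F.map σ)) (by
    unfold heqn
    simp only [Polynomial.eval₂_sub, Polynomial.eval₂_X_pow, Polynomial.eval₂_C]
    rw [RingHom.comp_apply, coe_mapRingHom]
    unfold DN
    rw [Polynomial.map_add, Polynomial.map_pow, Polynomial.map_ofNat, map_add, map_pow, map_ofNat]
    have h1 := pz_eq (FI F σ)
    rw [ppol_FI] at h1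
    linear_combination (-4) * h1 + (4 * pz (FI F σ) ^ 2) * ii_sq F σ)

theorem covN0_hpol (p : K[X]) : covN0 F σ (hpol (DN F) p) = ppol (FI F σ) (p.map σ) :=
  AdjoinRoot.lift_of _

theorem covN0_hy : covN0 F σ (hy (DN F)) =
    -(2 * ii F σ * pz (FI F σ)) - ppol (FI F σ) (F.map σ) :=
  AdjoinRoot.lift_root _

theorem covN0_z : covN0 F σ (hpol (DN F) (PN F) + hpol (DN F) (QN F) * hy (DN F)) =
    -(pz (FI F σ) ^ 2) := by
  rw [map_add, map_mul, covN0_hpol, covN0_hpol, covN0_hy]
  unfold PN QN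
  simp only [Polynomial.map_mul, Polynomial.map_add, Polynomial.map_pow, Polynomial.map_C,
    Polynomial.map_ofNat, map_mul, map_add, map_pow, map_ofNat, map_inv₀]
  have hc : ppol (FI F σ) (C 2⁻¹) * 2 = 1 := by
    rw [← map_ofNat (ppol (FI F σ)) 2, ← map_mul, half two_ne_zero, map_one]
  have h1 := pz_eq (FI F σ)
  rw [ppol_FI] at h1
  linear_combination h1 + (1 - ii F σ * pz (FI F σ) * ppol (FI F σ) (F.map σ)) * hc

end defs

section cover

variable {K : Type*} [Field K] {F : K[X]} {σ : K →+* ℂ} {n : ℕ} {b : Fin n → K}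

theorem covN0_hDel : covN0 F σ (hDel (DN F) b) = pDel (FI F σ) fun m => σ (b m) := by
  unfold hDel pDel
  rw [covN0_hpol, Polynomial.map_prod]
  congr 1
  refine Finset.prod_congr rfl fun m _ => ?_
  rw [Polynomial.map_sub, Polynomial.map_X, Polynomial.map_C]

/-- the isomorphism on the open parts -/
noncomputable def covN : HOpen (DN F) b →+* POpen (FI F σ) fun m => σ (b m) :=
  AdjoinRoot.lift ((toP (FI F σ) fun m => σ (b m)).comp (covN0 F σ))
    (((isUnit_pDel (FI F σ) fun m => σ (b m)).unit⁻¹ : (POpen (FI F σ) fun m => σ (b m))ˣ)) (by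
    unfold heqnO
    simp only [Polynomial.eval₂_sub, Polynomial.eval₂_mul, Polynomial.eval₂_X,
      Polynomial.eval₂_C, Polynomial.eval₂_one]
    rw [RingHom.comp_apply, covN0_hDel, sub_eq_zero]
    exact (isUnit_pDel (FI F σ) fun m => σ (b m)).mul_val_inv)

theorem covN_toH (r : HRing (DN F)) : (covN (F := F) (σ := σ) (b := b)) (toH (DN F) b r) =
    toP (FI F σ) (fun m => σ (b m)) (covN0 F σ r) :=
  AdjoinRoot.lift_of _

theorem covN_hcst (c : K) : (covN (F := F) (σ := σ) (b := b)) (hcst (DN F) b c) =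
    pcst (FI F σ) (fun m => σ (b m)) (σ c) := by
  unfold hcst pcst
  rw [RingHom.comp_apply, RingHom.comp_apply, covN_toH, covN0_hpol, Polynomial.map_C]
  rfl

theorem covN_hz (h2 : (2 : K) ≠ 0) :
    Units.map (covN (F := F) (σ := σ) (b := b) : HOpen (DN F) b →* _) (hz b (pellN F h2)) =
      -1 * (uz (FI F σ) (fun m => σ (b m)) * uz (FI F σ) fun m => σ (b m)) := by
  apply Units.ext
  show covN (toH (DN F) b _) = -1 * ((uz (FI F σ) fun m => σ (b m)).val *
    (uz (FI F σ) fun m => σ (b m)).val)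
  rw [covN_toH, covN0_z, map_neg, sq, map_mul, neg_one_mul]
  rfl

theorem covN_hx (m : Fin n) :
    Units.map (covN (F := F) (σ := σ) (b := b) : HOpen (DN F) b →* _) (hx (DN F) b m) =
      ux (FI F σ) (fun m => σ (b m)) m := by
  apply Units.ext
  show covN (toH (DN F) b _) = (ux (FI F σ) (fun m => σ (b m)) m :
    POpen (FI F σ) fun m => σ (b m))
  rw [covN_toH, covN0_hpol, coe_ux, Polynomial.map_sub, Polynomial.map_X, Polynomial.map_C]

theorem reg_covN (h2 : (2 : K) ≠ 0) (m l : Fin n)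
    (Γ : Torus (POpen (FI F σ) fun m => σ (b m)) 1) :
    (pullT (covN (F := F) (σ := σ) (b := b)) Γ).reg (symb (hent b (pellN F h2) m l)) =
      2 * Γ.reg (symb (pent (FI F σ) (fun m => σ (b m)) m l)) := by
  have e1 : symb (hent b (pellN F h2) m l) =
    s2 (hz b (pellN F h2)) (hx (DN F) b m / hx (DN F) b l) := rfl
  have e2 : symb (pent (FI F σ) (fun m => σ (b m)) m l) =
    s2 (uz (FI F σ) fun m => σ (b m)) (ux (FI F σ) (fun m => σ (b m)) m /
      ux (FI F σ) (fun m => σ (b m)) l) := rfl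
  rw [e1, e2, reg_pull, _root_.map_div, covN_hz h2, covN_hx, covN_hx]
  simp only [s2_mul_left, s2_neg_one, map_add, zero_add]
  ring

end cover

/-- The condition on the critical values `v` of `F` at the embedding `σ`: they are outside of an
ellipse with the foci `2 i` and `-2 i`. -/
def CritOutsideN {K : Type*} [Field K] (σ : K →+* ℂ) (F : K[X]) : Prop :=
  ∀ x : ℂ, (derivative F).eval₂ σ x = 0 →
    3 * √2 < ‖F.eval₂ σ x - 2 * Complex.I‖ + ‖F.eval₂ σ x + 2 * Complex.I‖

section main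

variable {K : Type*} [Field K] {F : K[X]} {σ : K →+* ℂ}

theorem exists_toriN {g : ℕ} (hdeg : F.natDegree = g + 1) {b : Fin (g + 1) → K}
    (hbi : Function.Injective b) (hroot : ∀ i, F.eval (b i) = 0)
    (hc : CritOutsideN σ F) (h2 : (2 : K) ≠ 0) :
    ∃ Γ : Fin g → Torus (HOpen (DN F) b) 1,
      (∀ l θ (c : K), (Γ l).e θ (hcst (DN F) b c) = σ c) ∧
      (Matrix.of fun l k : Fin g => (Γ l).reg (symb (hent b (pellN F h2) k.succ 0))).det ≠ 0 := by
  have hid : ∀ (p : ℂ[X]) (x : ℂ), p.eval₂ (RingHom.id ℂ) x = p.eval x := fun p x => rfl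
  obtain ⟨Γ, hΓ, hdet⟩ := Pool.Agent.N686.EL.crit_sqrt (s := RingHom.id ℂ) (F := FI F σ) (g := g)
    (by
      unfold FI
      rw [natDegree_C_mul Complex.I_ne_zero, natDegree_map, hdeg])
    (fun x hx => by
      rw [hid] at hx ⊢
      unfold FI at hx ⊢
      rw [derivative_C_mul, eval_mul, eval_C, derivative_map, eval_map] at hx
      have h1 := hc x ((mul_eq_zero.1 hx).resolve_left Complex.I_ne_zero)
      rw [eval_mul, eval_C, eval_map]
      have e1 : Complex.I * F.eval₂ σ x - 2 = Complex.I * (F.eval₂ σ x + 2 * Complex.I) := by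
        linear_combination (-2) * Complex.I_mul_I
      have e2 : Complex.I * F.eval₂ σ x + 2 = Complex.I * (F.eval₂ σ x - 2 * Complex.I) := by
        linear_combination 2 * Complex.I_mul_I
      rw [e1, e2, norm_mul, norm_mul, Complex.norm_I, one_mul, one_mul, add_comm]
      exact h1)
    (fun m => σ (b m))
    (fun m => by
      unfold FI
      rw [eval_mul, eval_map, eval₂_at_apply, hroot, map_zero, mul_zero])
    (fun i j h => hbi (σ.injective h))
  refine ⟨fun l => pullT (covN (F := F) (σ := σ) (b := b)) (Γ l), fun l θ c => ?_, ?_⟩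
  · show (Γ l).e θ (covN (hcst (DN F) b c)) = σ c
    rw [covN_hcst, hΓ]
    rfl
  · have e : (Matrix.of fun l k : Fin g =>
        (pullT (covN (F := F) (σ := σ) (b := b)) (Γ l)).reg
          (symb (hent b (pellN F h2) k.succ 0))) =
        (2 : ℝ) • Matrix.of fun l k : Fin g =>
          (Γ l).reg (symb (pent (FI F σ) (fun m => σ (b m)) k.succ 0)) := by
      ext l k
      rw [Matrix.of_apply, Matrix.smul_apply, Matrix.of_apply, reg_covN h2, smul_eq_mul]
    rw [e, Matrix.det_smul]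
    exact mul_ne_zero (pow_ne_zero _ two_ne_zero) hdet

end main

end Pool.Agent.Run7.h770.NM
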