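import Pool.Agent.Run7.h770.OP.Neg
import Pool.Agent.N686.DI.Int2
set_option autoImplicit false

/-!
The curves `y² = F(x)² + 4`: smoothness, integrality, rational integers.
-/

namespace Pool.Agent.Run7.h770.NM

open Polynomial
open Pool.Agent.N686.DI

section sep

variable {K : Type*} [Field K] {F : K[X]}

theorem natDegree_DN {g : ℕ} (hdeg : F.natDegree = g + 1) : (DN F).natDegree = 2 * g + 2 := by
  unfold DN
  rw [← map_ofNat (C : K →+* K[X]) 4, natDegree_add_C, natDegree_pow, hdeg]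
  ring

theorem separable_DN {σ : K →+* ℂ} (hc : CritOutsideN σ F) : (DN F).Separable := by
  have hal : ∀ (p : K[X]) (u : ℂ), aeval u (p.map σ) = p.eval₂ σ u := fun p u => by
    rw [coe_aeval_eq_eval, eval_map]
  rw [← Polynomial.separable_map σ]
  unfold Polynomial.Separable
  rw [isCoprime_iff_aeval_ne_zero_of_isAlgClosed (k := ℂ) (K := ℂ)]
  intro u
  rw [derivative_map, hal, hal]
  by_contra hcon
  push Not at hcon
  obtain ⟨h1, h2⟩ := hcon
  have e4 : σ 4 = 4 := map_ofNat σ 4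
  have e5 : σ 2 = 2 := map_ofNat σ 2
  have e1 : (DN F).eval₂ σ u = F.eval₂ σ u ^ 2 + 4 := by
    unfold DN
    rw [show (4 : K[X]) = C 4 from (map_ofNat C 4).symm]
    simp [eval₂_add, eval₂_pow, e4]
  have e2 : (derivative (DN F)).eval₂ σ u = 2 * F.eval₂ σ u * (derivative F).eval₂ σ u := by
    unfold DN
    rw [show (4 : K[X]) = C 4 from (map_ofNat C 4).symm, derivative_add, derivative_pow,
      derivative_C]
    simp [eval₂_mul, e5]
  rw [e1] at h1
  rw [e2] at h2
  have hF0 : F.eval₂ σ u ≠ 0 := by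
    intro h
    rw [h] at h1
    norm_num at h1
  have h3 := hc u ((mul_eq_zero.1 h2).resolve_left (mul_ne_zero two_ne_zero hF0))
  have h4 : (F.eval₂ σ u - 2 * Complex.I) * (F.eval₂ σ u + 2 * Complex.I) = 0 := by
    linear_combination h1 - 4 * Complex.I_mul_I
  have h5 : (4 / 3 : ℝ) ≤ √2 := by
    rw [Real.le_sqrt' (by norm_num)]
    norm_num
  have h6 : ‖(4 : ℂ) * Complex.I‖ = 4 := by
    rw [norm_mul, Complex.norm_I]
    norm_num
  rcases mul_eq_zero.1 h4 with h | h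
  · rw [h, norm_zero, zero_add, sub_eq_zero.1 h,
      show (2 : ℂ) * Complex.I + 2 * Complex.I = 4 * Complex.I by ring, h6] at h3
    linarith
  · have h7 : F.eval₂ σ u = -(2 * Complex.I) := eq_neg_of_add_eq_zero_left h
    rw [h, norm_zero, add_zero, h7,
      show -((2 : ℂ) * Complex.I) - 2 * Complex.I = -(4 * Complex.I) by ring, norm_neg, h6] at h3
    linarith

end sep

section poly

variable {K : Type*} [Field K] {n : ℕ}

/-- `F = λ ∏ (x - b_i)` -/
noncomputable def FN (lam : K) (b : Fin n → K) : K[X] := C lam * ∏ i, (X - C (b i))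

theorem natDegree_FN {lam : K} (hl : lam ≠ 0) (b : Fin n → K) : (FN lam b).natDegree = n := by
  unfold FN
  rw [natDegree_C_mul hl, natDegree_prod_of_monic _ _ fun i _ => monic_X_sub_C _]
  simp

theorem eval_FN (lam : K) (b : Fin n → K) (i : Fin n) : (FN lam b).eval (b i) = 0 := by
  unfold FN
  rw [eval_mul, eval_prod, Finset.prod_eq_zero (Finset.mem_univ i) (by simp), mul_zero]

theorem integral_PN {F' : K[X]} {lam : K} (hl : IsIntegral ℤ lam) {b : Fin n → K}
    (hb : ∀ i, IsIntegral ℤ (b i)) (h2 : (2 : K) ≠ 0) (hF : F' = FN lam b) (i : ℕ) :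
    IsIntegral ℤ (2 * (PN F').coeff i) := by
  subst hF
  set R := integralClosure ℤ K
  set H' : R[X] := C ⟨lam, hl⟩ * ∏ i, (X - C ⟨b i, hb i⟩) with hH'
  have h1 : H'.map (algebraMap R K) = FN lam b := by
    rw [hH', Polynomial.map_mul, Polynomial.map_C, Polynomial.map_prod]
    unfold FN
    congr 1
    refine Finset.prod_congr rfl fun i _ => ?_
    rw [Polynomial.map_sub, Polynomial.map_X, Polynomial.map_C]
    rfl
  have h3 : (C (2 : K) * PN (FN lam b)) = (H' ^ 2 + 2).map (algebraMap R K) := by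
    rw [Polynomial.map_add, Polynomial.map_pow, h1, Polynomial.map_ofNat]
    unfold PN
    rw [← mul_assoc, ← C_mul, mul_inv_cancel₀ h2, C_1, one_mul]
  rw [← coeff_C_mul, h3, coeff_map]
  exact ((H' ^ 2 + 2).coeff i).2

/-- the condition for a real critical value -/
theorem outside_of_real {r : ℝ} (hr : 1 / 2 < r ^ 2) {v : ℂ} (hv : v = (r : ℂ)) :
    3 * √2 < ‖v - 2 * Complex.I‖ + ‖v + 2 * Complex.I‖ := by
  have h4 : ‖v - 2 * Complex.I‖ ^ 2 + ‖v + 2 * Complex.I‖ ^ 2 = 2 * r ^ 2 + 8 := by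
    have := parallelogram_law_with_norm ℝ v (2 * Complex.I)
    have e : ‖(2 : ℂ) * Complex.I‖ = 2 := by
      rw [norm_mul, Complex.norm_I]
      norm_num
    have e' : ‖v‖ * ‖v‖ = r ^ 2 := by
      rw [hv, Complex.norm_real, Real.norm_eq_abs, abs_mul_abs_self, sq]
    rw [e] at this
    nlinarith
  have h3 : ‖v - 2 * Complex.I‖ * ‖v + 2 * Complex.I‖ = r ^ 2 + 4 := by
    rw [← norm_mul, show (v - 2 * Complex.I) * (v + 2 * Complex.I) = ((r ^ 2 + 4 : ℝ) : ℂ) by
      rw [hv]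
      push_cast
      linear_combination (-4) * Complex.I_mul_I, Complex.norm_real, Real.norm_eq_abs,
      abs_of_nonneg (by positivity)]
  have h5 : √2 ^ 2 = 2 := Real.sq_sqrt (by norm_num)
  refine lt_of_pow_lt_pow_left₀ 2 (by positivity) ?_
  rw [mul_pow, h5]
  nlinarith

theorem mm_mono {n k : ℕ} (hn : 2 ≤ n) : mm n ≤ mm (n + k) := by
  induction k with
  | zero => exact le_rfl
  | succ k ih => exact ih.trans (mm_le_succ (by omega))

theorem crit_intN {g : ℕ} {m : ℤ} (hm : m ≠ 0) (b : Fin (g + 1) → ℤ) (hb : Function.Injective b)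
    (h : 4 ≤ g ∨ 2 ≤ g ∧ 2 ≤ |m| ∨ 1 ≤ g ∧ 3 ≤ |m| ∨ ∃ i j, 6 ≤ |m| * (b i - b j))
    (σ : ℚ →+* ℂ) : CritOutsideN σ (FN (m : ℚ) fun i => (b i : ℚ)) := by
  intro ξ hξ
  have hmap : (∏ i, (X - C (b i : ℚ))).map σ = ∏ i, (X - C (b i : ℂ)) := by
    rw [Polynomial.map_prod]
    refine Finset.prod_congr rfl fun i _ => ?_
    rw [Polynomial.map_sub, Polynomial.map_X, Polynomial.map_C, map_intCast]
  have hm' : (m : ℂ) ≠ 0 := by exact_mod_cast hm
  unfold FN at hξ ⊢
  rw [derivative_C_mul, eval₂_mul, eval₂_C, map_intCast, ← eval_map, ← derivative_map, hmap] at hξ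
  have hξ' := (mul_eq_zero.1 hξ).resolve_left hm'
  have hinj : Function.Injective fun i => (b i : ℂ) := fun i j h => hb (Int.cast_injective h)
  obtain ⟨h0, hsum⟩ := sum_inv_eq_zero _ hinj hξ'
  have hcast : ∀ i, (b i : ℂ) = ((b i : ℝ) : ℂ) := fun i => by push_cast; rfl
  have him : ξ.im = 0 := by
    refine real_of_crit (fun i => (b i : ℝ)) (Nat.succ_pos g) (fun i => ?_) ?_
    · rw [← hcast]
      exact h0 i
    · simpa only [hcast] using hsum
  have hξx : ξ = (ξ.re : ℂ) := by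
    apply Complex.ext
    · simp
    · simpa using him
  rw [eval₂_mul, eval₂_C, map_intCast, ← eval_map, hmap]
  have hv : (m : ℂ) * (∏ i, (X - C (b i : ℂ))).eval ξ =
      (((m : ℝ) * ∏ i, (ξ.re - (b i : ℝ)) : ℝ) : ℂ) := by
    rw [eval_prod]
    simp only [eval_sub, eval_X, eval_C]
    push_cast
    rw [← hξx]
  refine outside_of_real ?_ hv
  have hnorm : ‖∏ i, (ξ - (b i : ℂ))‖ = |∏ i, (ξ.re - (b i : ℝ))| := by
    have : ∏ i, (ξ - (b i : ℂ)) = ((∏ i, (ξ.re - (b i : ℝ)) : ℝ) : ℂ) := by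
      push_cast
      rw [← hξx]
    rw [this, Complex.norm_real, Real.norm_eq_abs]
  have h1 := crit_int (Nat.succ_pos g) b hb hξ'
  rw [hnorm] at h1
  have hmabs : (1 : ℝ) ≤ ((|m| : ℤ) : ℝ) := by exact_mod_cast Int.one_le_abs hm
  have hg1 : 1 ≤ g := by
    rcases h with h | h | h | ⟨i, j, h⟩
    · omega
    · omega
    · omega
    · by_contra hcon
      have hij : i = j := Fin.ext (by omega)
      rw [hij, sub_self, mul_zero] at h
      omega
  have key : (3 / 4 : ℝ) ≤ ((|m| : ℤ) : ℝ) * |∏ i, (ξ.re - (b i : ℝ))| := by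
    have h3 : mm 3 = 3 / 8 := by rw [mm_succ, mm_two]; norm_num
    have hgen : ∀ (n : ℕ) (c d : ℝ), 0 ≤ d → 0 ≤ c → 2 ≤ n → n ≤ g + 1 → mm n = c →
        d ≤ ((|m| : ℤ) : ℝ) → 3 / 4 ≤ d * c →
        (3 / 4 : ℝ) ≤ ((|m| : ℤ) : ℝ) * |∏ i, (ξ.re - (b i : ℝ))| := by
      intro n c d hd hc0 hn hg hc hdm hle
      obtain ⟨k, hk⟩ := Nat.exists_eq_add_of_le hg
      have e1 : c ≤ |∏ i, (ξ.re - (b i : ℝ))| := by
        rw [← hc]
        refine le_trans ?_ h1
        rw [show g.succ = n + k from hk]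
        exact mm_mono hn
      exact hle.trans (mul_le_mul hdm e1 hc0 (by positivity))
    rcases h with h | ⟨h, h'⟩ | ⟨h, h'⟩ | ⟨i, j, h⟩
    · exact hgen 5 (45 / 32) 1 (by norm_num) (by norm_num) (by norm_num) (by omega) mm_five hmabs
        (by norm_num)
    · exact hgen 3 (3 / 8) 2 (by norm_num) (by norm_num) (by norm_num) (by omega) h3
        (by exact_mod_cast h') (by norm_num)
    · exact hgen 2 (1 / 4) 3 (by norm_num) (by norm_num) (by norm_num) (by omega) mm_two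
        (by exact_mod_cast h') (by norm_num)
    · have h5 := crit_int_diam b hb hξ' i j
      rw [hnorm] at h5
      have h6 := mm_ge_one hg1
      have h7 : (6 : ℝ) ≤ ((|m| : ℤ) : ℝ) * |(b i : ℝ) - b j| := by
        have h8 : (6 : ℝ) ≤ ((|m| : ℤ) : ℝ) * ((b i : ℝ) - b j) := by exact_mod_cast h
        exact h8.trans (mul_le_mul_of_nonneg_left (le_abs_self _) (by linarith))
      have h9 : |(b i : ℝ) - b j| / 2 * (1 / 4) ≤ |∏ i, (ξ.re - (b i : ℝ))| :=
        (mul_le_mul_of_nonneg_left h6 (by positivity)).trans h5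
      nlinarith [mul_le_mul_of_nonneg_left h9 (by linarith : (0 : ℝ) ≤ ((|m| : ℤ) : ℝ))]
  have habs : ((|m| : ℤ) : ℝ) * |∏ i, (ξ.re - (b i : ℝ))| =
      |(m : ℝ) * ∏ i, (ξ.re - (b i : ℝ))| := by
    rw [abs_mul, Int.cast_abs]
  rw [habs] at key
  rw [← sq_abs]
  nlinarith

end poly

end Pool.Agent.Run7.h770.NM
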