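import Pool.Agent.Run7.h770.OP.Cov
import Pool.Agent.Run7.h770.OP.Int
set_option autoImplicit false

/-!
Smoothness, integrality, and the case of rational integers.
-/

namespace Pool.Agent.Run7.h770.OP

open Polynomial
open Pool.Agent.N686.DI (mm)

section sep

variable {K : Type*} [Field K] {H : K[X]}

theorem natDegree_DD {g : ℕ} (hdeg : H.natDegree = g) (hH : H ≠ 0) :
    (DD H).natDegree = 2 * g + 2 := by
  have h1 : (X * H ^ 2 : K[X]).natDegree = 2 * g + 1 := by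
    rw [natDegree_X_mul (pow_ne_zero 2 hH), natDegree_pow, hdeg]
  have h2 : (X * H ^ 2 - 4 : K[X]).natDegree = 2 * g + 1 := by
    rw [← map_ofNat (C : K →+* K[X]) 4, natDegree_sub_C, h1]
  have h3 : (X * H ^ 2 - 4 : K[X]) ≠ 0 := by
    intro h
    rw [h, natDegree_zero] at h2
    omega
  unfold DD
  rw [natDegree_X_mul h3, h2]

theorem separable_DD {σ : K →+* ℂ} (hc : CritOutside σ H) : (DD H).Separable := by
  have hal : ∀ (p : K[X]) (u : ℂ), aeval u (p.map σ) = p.eval₂ σ u := fun p u => by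
    rw [coe_aeval_eq_eval, eval_map]
  rw [← Polynomial.separable_map σ]
  unfold Polynomial.Separable
  rw [isCoprime_iff_aeval_ne_zero_of_isAlgClosed (k := ℂ) (K := ℂ)]
  intro u
  rw [derivative_map, hal, hal]
  by_contra hcon
  push Not at hcon
  obtain ⟨h1, h2⟩ := hcon
  have e1 : (DD H).eval₂ σ u = u * (u * H.eval₂ σ u ^ 2 - 4) := by
    unfold DD
    simp [eval₂_mul, eval₂_sub, eval₂_pow, eval₂_ofNat]
  have e2 : (derivative (DD H)).eval₂ σ u = (u * H.eval₂ σ u ^ 2 - 4) +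
      u * (H.eval₂ σ u ^ 2 + u * (2 * H.eval₂ σ u * (derivative H).eval₂ σ u)) := by
    unfold DD
    rw [show (4 : K[X]) = C 4 from (map_ofNat C 4).symm, derivative_mul, derivative_X,
      derivative_sub, derivative_mul, derivative_X, derivative_pow, derivative_C]
    have e4 : σ 4 = 4 := map_ofNat σ 4
    have e5 : σ 2 = 2 := map_ofNat σ 2
    simp [eval₂_mul, eval₂_sub, eval₂_pow, eval₂_add, e4, e5]
  rw [e1] at h1
  rw [e2] at h2
  rcases mul_eq_zero.1 h1 with hu | hu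
  · rw [hu] at h2
    norm_num at h2
  · rw [hu, zero_add] at h2
    have hu0 : u ≠ 0 := by
      rintro rfl
      norm_num at hu
    have hH0 : H.eval₂ σ u ≠ 0 := by
      intro h
      rw [h] at hu
      norm_num at hu
    have h3 : H.eval₂ σ u * (H.eval₂ σ u + 2 * u * (derivative H).eval₂ σ u) = 0 := by
      refine (mul_eq_zero.1 (?_ : u * _ = 0)).resolve_left hu0
      linear_combination h2
    have h4 := hc u ((mul_eq_zero.1 h3).resolve_left hH0)
    rw [hu, norm_zero, add_zero, sub_eq_zero.1 hu] at h4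
    norm_num at h4

end sep

section poly

variable {K : Type*} [Field K] {g : ℕ}

/-- `H = λ ∏ (x - b_i)` -/
noncomputable def HH (lam : K) (b : Fin g → K) : K[X] := C lam * ∏ i, (X - C (b i))

theorem HH_ne_zero {lam : K} (hl : lam ≠ 0) (b : Fin g → K) : HH lam b ≠ 0 :=
  mul_ne_zero (C_ne_zero.2 hl) (Finset.prod_ne_zero_iff.2 fun i _ => X_sub_C_ne_zero (b i))

theorem natDegree_HH {lam : K} (hl : lam ≠ 0) (b : Fin g → K) : (HH lam b).natDegree = g := by
  unfold HH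
  rw [natDegree_C_mul hl, natDegree_prod_of_monic _ _ fun i _ => monic_X_sub_C _]
  simp

theorem eval_HH (lam : K) (b : Fin g → K) (i : Fin g) : (HH lam b).eval (b i) = 0 := by
  unfold HH
  rw [eval_mul, eval_prod, Finset.prod_eq_zero (Finset.mem_univ i) (by simp), mul_zero]

theorem eval₂_HH (σ : K →+* ℂ) (lam : K) (b : Fin g → K) (u : ℂ) :
    (HH lam b).eval₂ σ u = σ lam * ∏ i, (u - σ (b i)) := by
  unfold HH
  rw [eval₂_mul, eval₂_C, eval₂_finsetProd]
  simp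

theorem eval₂_dHH (σ : K →+* ℂ) (lam : K) (b : Fin g → K) (u : ℂ) :
    (derivative (HH lam b)).eval₂ σ u =
      σ lam * ∑ i, ∏ j ∈ Finset.univ.erase i, (u - σ (b j)) := by
  unfold HH
  rw [derivative_C_mul, eval₂_mul, eval₂_C, derivative_prod_finset, eval₂_finsetSum]
  congr 1
  refine Finset.sum_congr rfl fun i _ => ?_
  rw [eval₂_mul, eval₂_finsetProd]
  simp

/-- the logarithmic derivative of `x H²` vanishes at the critical points -/
theorem crit_sum {β : Fin g → ℂ} (hβ : Function.Injective β) (hβ0 : ∀ i, β i ≠ 0) {l u : ℂ}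
    (hl : l ≠ 0) (h : l * ∏ i, (u - β i) +
      2 * u * (l * ∑ i, ∏ j ∈ Finset.univ.erase i, (u - β j)) = 0) :
    u ≠ 0 ∧ (∀ i, u - β i ≠ 0) ∧ u⁻¹ + 2 * ∑ i, (u - β i)⁻¹ = 0 := by
  have hu : u ≠ 0 := by
    rintro rfl
    rw [mul_zero, zero_mul, add_zero] at h
    have h1 := (mul_eq_zero.1 h).resolve_left hl
    obtain ⟨i, -, hi⟩ := Finset.prod_eq_zero_iff.1 h1
    exact hβ0 i (by rwa [zero_sub, neg_eq_zero] at hi)
  have hb : ∀ i, u - β i ≠ 0 := by
    intro k hk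
    rw [Finset.prod_eq_zero (Finset.mem_univ k) hk, mul_zero, zero_add] at h
    have h3 : ∑ i, ∏ j ∈ Finset.univ.erase i, (u - β j) =
        ∏ j ∈ Finset.univ.erase k, (u - β j) := by
      refine Finset.sum_eq_single k (fun i _ hi => ?_) (fun h => absurd (Finset.mem_univ k) h)
      exact Finset.prod_eq_zero (Finset.mem_erase.2 ⟨Ne.symm hi, Finset.mem_univ k⟩) hk
    rw [h3] at h
    have h4 := (mul_eq_zero.1 ((mul_eq_zero.1 h).resolve_left
      (mul_ne_zero two_ne_zero hu))).resolve_left hl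
    obtain ⟨j, hj, hj0⟩ := Finset.prod_eq_zero_iff.1 h4
    have h5 : β k = β j := by
      rw [← sub_eq_zero.1 hk, ← sub_eq_zero.1 hj0]
    exact (Finset.ne_of_mem_erase hj) (hβ h5).symm
  refine ⟨hu, hb, ?_⟩
  have h3 : ∀ i, ∏ j ∈ Finset.univ.erase i, (u - β j) = (∏ j, (u - β j)) * (u - β i)⁻¹ := by
    intro i
    rw [← Finset.mul_prod_erase _ _ (Finset.mem_univ i)]
    have h5 := hb i
    field_simp
  simp only [h3] at h
  rw [← Finset.mul_sum] at h
  have hP : ∏ j, (u - β j) ≠ 0 := Finset.prod_ne_zero_iff.2 fun j _ => hb j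
  have h6 : (l * (∏ j, (u - β j)) * u) * (u⁻¹ + 2 * ∑ i, (u - β i)⁻¹) = 0 := by
    rw [mul_add, mul_assoc _ u u⁻¹, mul_inv_cancel₀ hu]
    linear_combination h
  exact (mul_eq_zero.1 h6).resolve_left (mul_ne_zero (mul_ne_zero hl hP) hu)

theorem crit_int {m : ℤ} (hm : m ≠ 0) (b : Fin g → ℤ) (hb : Function.Injective b)
    (hb0 : ∀ i, b i ≠ 0) (h : (7 ≤ |m| ∧ 1 ≤ g ∨ 5 ≤ |m| ∧ 3 ≤ g ∨ 3 ≤ |m| ∧ 4 ≤ g ∨
      m ≠ 0 ∧ 5 ≤ g) ∨ ∃ j, 9 * 4 ^ g < m ^ 2 * |b j|) (σ : ℚ →+* ℂ) :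
    CritOutside σ (HH (m : ℚ) fun i => (b i : ℚ)) := by
  intro u hu
  rw [eval₂_HH, eval₂_dHH] at hu
  rw [eval₂_HH]
  simp only [map_intCast] at hu ⊢
  have hβ : Function.Injective fun i => (b i : ℂ) := fun i j h => hb (Int.cast_injective h)
  have hm' : (m : ℂ) ≠ 0 := by exact_mod_cast hm
  obtain ⟨h0, h1, h2⟩ := crit_sum hβ (fun i => by exact_mod_cast hb0 i) hm' hu
  have hbound : (9 / 2 : ℝ) < ((|m| : ℤ) : ℝ) ^ 2 * (‖u‖ * ‖∏ i, (u - (b i : ℂ))‖ ^ 2) := by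
    rcases h with h | ⟨j, hj⟩
    · exact (lt_crit h).trans_le (mul_le_mul_of_nonneg_left (crit_dbl b hb hb0 h0 h1 h2)
        (by positivity))
    · refine lt_of_lt_of_le ?_ (mul_le_mul_of_nonneg_left (crit_big b j h0 h1 h2)
        (by positivity))
      have h3 : (9 * 4 ^ g : ℝ) < (m : ℝ) ^ 2 * |(b j : ℝ)| := by exact_mod_cast hj
      have h4 : (((|m| : ℤ) : ℝ)) ^ 2 = (m : ℝ) ^ 2 := by
        rw [Int.cast_abs, sq_abs]
      rw [h4, div_div, mul_div_assoc', lt_div_iff₀ (by positivity)]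
      linarith
  have h5 : ‖u * ((m : ℂ) * ∏ i, (u - (b i : ℂ))) ^ 2‖ =
      ((|m| : ℤ) : ℝ) ^ 2 * (‖u‖ * ‖∏ i, (u - (b i : ℂ))‖ ^ 2) := by
    rw [norm_mul, norm_pow, norm_mul, Complex.norm_intCast, Int.cast_abs]
    ring
  have h6 := norm_sub_norm_le (u * ((m : ℂ) * ∏ i, (u - (b i : ℂ))) ^ 2) 4
  rw [h5] at h6 ⊢
  have h7 : ‖(4 : ℂ)‖ = 4 := by norm_num
  rw [h7] at h6
  linarith

theorem integral_PP {lam : K} (hl : IsIntegral ℤ lam) {b : Fin g → K} (hb : ∀ i, IsIntegral ℤ (b i))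
    (h2 : (2 : K) ≠ 0) (i : ℕ) : IsIntegral ℤ (2 * (PP (HH lam b)).coeff i) := by
  set R := integralClosure ℤ K
  set H' : R[X] := C ⟨lam, hl⟩ * ∏ i, (X - C ⟨b i, hb i⟩) with hH'
  have h1 : H'.map (algebraMap R K) = HH lam b := by
    rw [hH', Polynomial.map_mul, Polynomial.map_C, Polynomial.map_prod]
    unfold HH
    congr 1
    refine Finset.prod_congr rfl fun i _ => ?_
    rw [Polynomial.map_sub, Polynomial.map_X, Polynomial.map_C]
    rfl
  have h3 : (C (2 : K) * PP (HH lam b)) = (X * H' ^ 2 - 2).map (algebraMap R K) := by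
    rw [Polynomial.map_sub, Polynomial.map_mul, Polynomial.map_X, Polynomial.map_pow, h1,
      Polynomial.map_ofNat]
    unfold PP
    rw [← mul_assoc, ← C_mul, mul_inv_cancel₀ h2, C_1, one_mul]
  rw [← coeff_C_mul, h3, coeff_map]
  exact ((X * H' ^ 2 - 2).coeff i).2

end poly

end Pool.Agent.Run7.h770.OP
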